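import Pool.Agent.H27.CAL.Stmts2

/-! Project CAL, module NET: finite nets of functionals. -/

open scoped BigOperators ENNReal Topology
open Filter

namespace CAL

theorem nrm_eq_sum {𝕜 : Type*} [RCLike 𝕜] {A : Type*} {Y : Type*} [NormedAddCommGroup Y]
    [NormedSpace 𝕜 Y] (b : Fn 𝕜 A Y) (S : Finset ℕ) (T : Finset A)
    (h1 : b.1.support ⊆ S) (h2 : b.2.support ⊆ T) :
    nrm b = ∑ γ ∈ S, ‖b.1 γ‖ + ∑ a ∈ T, ‖b.2 a‖ := by
  unfold nrm
  rw [Finsupp.sum_of_support_subset _ h1 _ (by simp),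
    Finsupp.sum_of_support_subset _ h2 _ (by simp)]

theorem net_approx {ι E : Type*} [NormedAddCommGroup E] [DecidableEq ι] [DecidableEq E]
    (w : ℕ → E) (hw : DenseRange w)
    (g : ι →₀ E) (S : Finset ι) (hg : g.support ⊆ S) (ε : ℝ) (hε : 0 < ε) :
    ∃ n0 : ℕ, ∃ g' : ι →₀ E, g'.support ⊆ S ∧ (∀ i ∈ S, ‖g' i - g i‖ ≤ ε) ∧
      ∀ n ≥ n0, ∀ i, g' i ∈ insert (0 : E) ((Finset.range n).image w) := by
  have h1 : ∀ i, ∃ k, ‖w k - g i‖ ≤ ε := by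
    intro i
    obtain ⟨k, hk⟩ := hw.exists_dist_lt (g i) hε
    refine ⟨k, ?_⟩
    rw [← dist_eq_norm, dist_comm]
    exact hk.le
  choose f hf using h1
  refine ⟨S.sup f + 1, Finsupp.onFinset S (fun i => if i ∈ S then w (f i) else 0) ?_, ?_, ?_, ?_⟩
  · intro i hi
    by_contra h
    simp [h] at hi
  · exact Finsupp.support_onFinset_subset
  · intro i hi
    simp only [Finsupp.onFinset_apply, hi, if_true]
    exact hf i
  · intro n hn i
    simp only [Finsupp.onFinset_apply]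
    by_cases hi : i ∈ S
    · simp only [hi, if_true, Finset.mem_insert, Finset.mem_image, Finset.mem_range]
      right
      exact ⟨f i, by have := Finset.le_sup (f := f) hi; omega, rfl⟩
    · simp [hi]

variable {𝕜 : Type*} [RCLike 𝕜] {A : Type*} [PartialOrder A] {Y : Type*} [NormedAddCommGroup Y]
  [NormedSpace 𝕜 Y]

theorem cal_net : NETStmt 𝕜 A Y := by
  classical
  intro hsep
  obtain ⟨u, hu⟩ := TopologicalSpace.exists_dense_seq 𝕜
  obtain ⟨v, hv⟩ := TopologicalSpace.exists_dense_seq (Y →L[𝕜] 𝕜)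
  refine ⟨fun n S T => ((S.finsupp fun _ => insert (0 : 𝕜) ((Finset.range n).image u)) ×ˢ
    (T.finsupp fun _ => insert (0 : Y →L[𝕜] 𝕜) ((Finset.range n).image v))).filter
      (fun b => nrm b ≤ 1), ?_, ?_⟩
  · intro n S T c hc
    simp only [Finset.mem_filter, Finset.mem_product, Finset.mem_finsupp_iff] at hc
    exact ⟨hc.2, hc.1.1.1, hc.1.2.1⟩
  · intro c hc δ hδ
    set S' := c.1.support with hS'
    set T' := c.2.support with hT'
    set k : ℝ := (S'.card : ℝ) + T'.card + 1 with hk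
    have hkpos : 0 < k := by positivity
    set d : ℝ := min δ 1 with hd
    have hd0 : 0 < d := lt_min hδ one_pos
    have hd1 : d ≤ 1 := min_le_right _ _
    have hdδ : d ≤ δ := min_le_left _ _
    set ε : ℝ := d / 2 / k with hε
    have hε0 : 0 < ε := by positivity
    set r : ℝ := 1 - d / 2 with hr
    have hr0 : 0 ≤ r := by linarith
    obtain ⟨n1, g1, hg1s, hg1, hg1m⟩ := net_approx u hu ((r : 𝕜) • c.1) S'
      (Finsupp.support_smul) ε hε0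
    obtain ⟨n2, g2, hg2s, hg2, hg2m⟩ := net_approx v hv ((r : 𝕜) • c.2) T'
      (Finsupp.support_smul) ε hε0
    have e1 : nrm c = ∑ γ ∈ S', ‖c.1 γ‖ + ∑ a ∈ T', ‖c.2 a‖ :=
      nrm_eq_sum c S' T' subset_rfl subset_rfl
    have e2 : nrm ((g1, g2) : Fn 𝕜 A Y) = ∑ γ ∈ S', ‖g1 γ‖ + ∑ a ∈ T', ‖g2 a‖ :=
      nrm_eq_sum _ S' T' hg1s hg2s
    have e3 : nrm ((g1, g2) - c : Fn 𝕜 A Y) =
        ∑ γ ∈ S', ‖g1 γ - c.1 γ‖ + ∑ a ∈ T', ‖g2 a - c.2 a‖ := by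
      rw [nrm_eq_sum ((g1, g2) - c : Fn 𝕜 A Y) S' T']
      · rfl
      · exact (Finsupp.support_sub).trans (Finset.union_subset hg1s subset_rfl)
      · exact (Finsupp.support_sub).trans (Finset.union_subset hg2s subset_rfl)
    have hcard : (S'.card : ℝ) * ε + T'.card * ε ≤ d / 2 := by
      have h1 : ((S'.card : ℝ) + T'.card + 1) * ε = d / 2 := by
        rw [hε, ← hk]
        field_simp
      nlinarith
    have nr : ‖(r : 𝕜)‖ = r := by
      rw [RCLike.norm_ofReal, abs_of_nonneg hr0]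
    have nr1 : ‖(1 : 𝕜) - (r : 𝕜)‖ = 1 - r := by
      have : (1 : 𝕜) - (r : 𝕜) = ((1 - r : ℝ) : 𝕜) := by push_cast; ring
      rw [this, RCLike.norm_ofReal, abs_of_nonneg (by linarith)]
    have b1 : ∑ γ ∈ S', ‖g1 γ‖ ≤ S'.card * ε + r * ∑ γ ∈ S', ‖c.1 γ‖ := by
      rw [Finset.mul_sum, ← nsmul_eq_mul, ← Finset.sum_const, ← Finset.sum_add_distrib]
      refine Finset.sum_le_sum fun γ hγ => ?_
      have h := hg1 γ hγ
      rw [Finsupp.smul_apply] at h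
      calc ‖g1 γ‖ = ‖(g1 γ - (r : 𝕜) • c.1 γ) + (r : 𝕜) • c.1 γ‖ := by rw [sub_add_cancel]
        _ ≤ ‖g1 γ - (r : 𝕜) • c.1 γ‖ + ‖(r : 𝕜) • c.1 γ‖ := norm_add_le _ _
        _ ≤ ε + r * ‖c.1 γ‖ := by rw [norm_smul, nr]; linarith
    have b2 : ∑ a ∈ T', ‖g2 a‖ ≤ T'.card * ε + r * ∑ a ∈ T', ‖c.2 a‖ := by
      rw [Finset.mul_sum, ← nsmul_eq_mul, ← Finset.sum_const, ← Finset.sum_add_distrib]
      refine Finset.sum_le_sum fun γ hγ => ?_
      have h := hg2 γ hγ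
      rw [Finsupp.smul_apply] at h
      calc ‖g2 γ‖ = ‖(g2 γ - (r : 𝕜) • c.2 γ) + (r : 𝕜) • c.2 γ‖ := by rw [sub_add_cancel]
        _ ≤ ‖g2 γ - (r : 𝕜) • c.2 γ‖ + ‖(r : 𝕜) • c.2 γ‖ := norm_add_le _ _
        _ ≤ ε + r * ‖c.2 γ‖ := by rw [norm_smul, nr]; linarith
    have b3 : ∑ γ ∈ S', ‖g1 γ - c.1 γ‖ ≤ S'.card * ε + (1 - r) * ∑ γ ∈ S', ‖c.1 γ‖ := by
      rw [Finset.mul_sum, ← nsmul_eq_mul, ← Finset.sum_const, ← Finset.sum_add_distrib]
      refine Finset.sum_le_sum fun γ hγ => ?_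
      have h := hg1 γ hγ
      rw [Finsupp.smul_apply] at h
      calc ‖g1 γ - c.1 γ‖ = ‖(g1 γ - (r : 𝕜) • c.1 γ) - ((1 : 𝕜) - (r : 𝕜)) • c.1 γ‖ := by
            congr 1
            rw [sub_smul, one_smul]
            abel_nf
        _ ≤ ‖g1 γ - (r : 𝕜) • c.1 γ‖ + ‖((1 : 𝕜) - (r : 𝕜)) • c.1 γ‖ := norm_sub_le _ _
        _ ≤ ε + (1 - r) * ‖c.1 γ‖ := by rw [norm_smul, nr1]; linarith
    have b4 : ∑ a ∈ T', ‖g2 a - c.2 a‖ ≤ T'.card * ε + (1 - r) * ∑ a ∈ T', ‖c.2 a‖ := by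
      rw [Finset.mul_sum, ← nsmul_eq_mul, ← Finset.sum_const, ← Finset.sum_add_distrib]
      refine Finset.sum_le_sum fun γ hγ => ?_
      have h := hg2 γ hγ
      rw [Finsupp.smul_apply] at h
      calc ‖g2 γ - c.2 γ‖ = ‖(g2 γ - (r : 𝕜) • c.2 γ) - ((1 : 𝕜) - (r : 𝕜)) • c.2 γ‖ := by
            congr 1
            ext y
            simp only [ContinuousLinearMap.sub_apply, ContinuousLinearMap.smul_apply, smul_eq_mul]
            ring
        _ ≤ ‖g2 γ - (r : 𝕜) • c.2 γ‖ + ‖((1 : 𝕜) - (r : 𝕜)) • c.2 γ‖ := norm_sub_le _ _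
        _ ≤ ε + (1 - r) * ‖c.2 γ‖ := by rw [norm_smul, nr1]; linarith
    have f1 : nrm ((g1, g2) : Fn 𝕜 A Y) ≤ 1 := by
      rw [e2]
      have h1 : r * nrm c ≤ r * 1 := mul_le_mul_of_nonneg_left hc hr0
      rw [e1] at h1
      nlinarith
    have f2 : nrm ((g1, g2) - c : Fn 𝕜 A Y) ≤ δ := by
      rw [e3]
      have h1 : (1 - r) * nrm c ≤ (1 - r) * 1 := mul_le_mul_of_nonneg_left hc (by linarith)
      rw [e1] at h1
      nlinarith
    refine ⟨max n1 n2, fun n hn S T hS hT => ⟨(g1, g2), ?_, f2⟩⟩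
    simp only [Finset.mem_filter, Finset.mem_product, Finset.mem_finsupp_iff]
    exact ⟨⟨⟨hg1s.trans hS, fun i _ => hg1m n ((le_max_left _ _).trans hn) i⟩,
      hg2s.trans hT, fun i _ => hg2m n ((le_max_right _ _).trans hn) i⟩, f1⟩

end CAL
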