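import Pool.Agent.H27.CAL.Stmts2

/-!
# Project CAL, module TPC: compact operators on C(A) have small tails
-/

open scoped BigOperators ENNReal Topology
open Filter

namespace CAL

universe u

namespace H9

/-- changes of ret come from nodes with levels in between -/
theorem ret_ne {A : Type*} [PartialOrder A] (τ : TreeLev A) {p q : ℕ} (hpq : p ≤ q) {x : A}
    (h : τ.ret q x ≠ τ.ret p x) : ∃ b, b ≤ x ∧ p < τ.lev b ∧ τ.lev b ≤ q := by
  by_contra hcon
  push Not at hcon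
  have hc : ∀ b, b ≤ x → τ.lev b ≤ q → τ.lev b ≤ p := by
    intro b hb hbq
    by_contra h1
    exact absurd hbq (not_le.2 (hcon b hb (not_le.1 h1)))
  apply h
  rcases hq : τ.ret q x with _ | b
  · symm
    rw [τ.ret_eq_none] at hq ⊢
    intro c hc'
    exact lt_of_le_of_lt hpq (hq c hc')
  · symm
    rw [τ.ret_eq_some] at hq ⊢
    exact ⟨hq.1, hc b hq.1 hq.2.1, fun c hcx hcp => hq.2.2 c hcx (hcp.trans hpq)⟩

variable {𝕜 : Type*} [RCLike 𝕜] {A : Type u} [PartialOrder A] [TopologicalSpace A]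
  [CompactSpace A]

/-- norm bound from the open unit ball -/
theorem norm_le_of {E G : Type*} [NormedAddCommGroup E] [NormedSpace 𝕜 E] [NormedAddCommGroup G]
    [NormedSpace 𝕜 G] (T : E →L[𝕜] G) {e : ℝ} (h : ∀ x, ‖x‖ < 1 → ‖T x‖ ≤ e) : ‖T‖ ≤ e := by
  by_contra hlt
  obtain ⟨x, hx, hx2⟩ := T.exists_lt_apply_of_lt_opNorm (not_le.1 hlt)
  exact absurd (h x hx) (not_le.2 hx2)

/-- the second part -/
theorem tail2 (P : ℕ → C(A, 𝕜) →L[𝕜] C(A, 𝕜)) (hPn : ∀ p f, ‖P p f‖ ≤ ‖f‖)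
    (hPt : ∀ f, Tendsto (fun p => P p f) atTop (𝓝 f)) (T : C(A, 𝕜) →L[𝕜] C(A, 𝕜))
    (hT : IsCompactOperator T) (e : ℝ) (he : 0 < e) : ∃ q, ‖T - (P q).comp T‖ ≤ e := by
  have hcpt : IsCompact (closure (T '' Metric.closedBall 0 1)) :=
    IsCompactOperator.isCompact_closure_image_closedBall (f := (T : C(A, 𝕜) →ₗ[𝕜] C(A, 𝕜))) hT 1
  obtain ⟨t, htf, hts⟩ := Metric.totallyBounded_iff.1 hcpt.totallyBounded (e / 4) (by positivity)
  have hev : ∀ᶠ q in atTop, ∀ y ∈ t, ‖P q y - y‖ < e / 4 := by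
    rw [Filter.eventually_all_finite htf]
    intro y _
    have := (tendsto_iff_norm_sub_tendsto_zero.1 (hPt y)).eventually_lt_const
      (show (0 : ℝ) < e / 4 by positivity)
    exact this
  obtain ⟨q, hq⟩ := hev.exists
  refine ⟨q, norm_le_of _ (fun f hf => ?_)⟩
  have hmem : T f ∈ closure (T '' Metric.closedBall 0 1) :=
    subset_closure ⟨f, by simpa using hf.le, rfl⟩
  obtain ⟨y, hy, hyb⟩ := Set.mem_iUnion₂.1 (hts hmem)
  rw [Metric.mem_ball, dist_eq_norm] at hyb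
  have h1 : (T - (P q).comp T) f = (T f - y) + (y - P q y) + P q (y - T f) := by
    simp only [ContinuousLinearMap.sub_apply, ContinuousLinearMap.comp_apply, map_sub]
    abel
  rw [h1]
  have h2 : ‖P q (y - T f)‖ ≤ ‖T f - y‖ := by
    rw [norm_sub_rev (T f) y]
    exact hPn q _
  have h3 : ‖y - P q y‖ < e / 4 := by
    rw [norm_sub_rev]
    exact hq y hy
  calc ‖(T f - y) + (y - P q y) + P q (y - T f)‖
      ≤ ‖(T f - y) + (y - P q y)‖ + ‖P q (y - T f)‖ := norm_add_le _ _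
    _ ≤ ‖T f - y‖ + ‖y - P q y‖ + ‖P q (y - T f)‖ := by
        gcongr
        exact norm_add_le _ _
    _ ≤ e := by linarith

/-- the first part -/
theorem tail1 (hchain : CHAINStmt.{u}) (hptak : PTAKStmt) (τ : TreeLev A)
    (P : ℕ → C(A, 𝕜) →L[𝕜] C(A, 𝕜)) (hP : ∀ p f x, P p f x = (τ.ret p x).elim 0 f)
    (hPn : ∀ p f, ‖P p f‖ ≤ ‖f‖)
    (hPt : ∀ f, Tendsto (fun p => P p f) atTop (𝓝 f)) (T : C(A, 𝕜) →L[𝕜] C(A, 𝕜))
    (hT : IsCompactOperator T) (e : ℝ) (he : 0 < e) : ∃ p, ‖T - T.comp (P p)‖ ≤ e := by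
  by_contra hcon
  push Not at hcon
  have hstep : ∀ p, ∃ f : C(A, 𝕜), ∃ q, p < q ∧ ‖f‖ < 1 ∧ e < ‖T (P q f - P p f)‖ := by
    intro p
    obtain ⟨f, hf, hf2⟩ := (T - T.comp (P p)).exists_lt_apply_of_lt_opNorm (hcon p)
    have h1 : Tendsto (fun q => ‖T (P q f - P p f)‖) atTop (𝓝 ‖T (f - P p f)‖) :=
      ((T.continuous.tendsto _).comp ((hPt f).sub_const (P p f))).norm
    have h2 : e < ‖T (f - P p f)‖ := by
      rw [map_sub]
      simpa using hf2
    obtain ⟨q, hq1, hq2⟩ := ((h1.eventually_const_lt h2).and (eventually_gt_atTop p)).exists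
    exact ⟨f, q, hq2, hf, hq1⟩
  choose F Q hQ hF hE using hstep
  -- the sequence of levels
  obtain ⟨s, hs⟩ : ∃ s : ℕ → ℕ, ∀ n, s (n + 1) = Q (s n) :=
    ⟨fun n => Nat.rec 0 (fun _ m => Q m) n, fun n => rfl⟩
  have hsm : StrictMono s := strictMono_nat_of_lt_succ (fun n => by rw [hs]; exact hQ _)
  obtain ⟨g, hg⟩ : ∃ g : ℕ → C(A, 𝕜), ∀ i, g i = P (s (i + 1)) (F (s i)) - P (s i) (F (s i)) :=
    ⟨_, fun i => rfl⟩
  have hgn : ∀ i, ‖g i‖ ≤ 2 := by
    intro i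
    rw [hg]
    calc ‖P (s (i + 1)) (F (s i)) - P (s i) (F (s i))‖
        ≤ ‖P (s (i + 1)) (F (s i))‖ + ‖P (s i) (F (s i))‖ := norm_sub_le _ _
      _ ≤ ‖F (s i)‖ + ‖F (s i)‖ := add_le_add (hPn _ _) (hPn _ _)
      _ ≤ 2 := by linarith [hF (s i)]
  have hgT : ∀ i, e < ‖T (g i)‖ := by
    intro i
    rw [hg, hs]
    exact hE (s i)
  have hgx : ∀ i x, g i x ≠ 0 → ∃ b, b ≤ x ∧ s i < τ.lev b ∧ τ.lev b ≤ s (i + 1) := by
    intro i x hx
    apply ret_ne τ (hsm (Nat.lt_succ_self i)).le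
    intro heq
    apply hx
    rw [hg, ContinuousMap.sub_apply, hP, hP, heq, sub_self]
  -- a convergent subsequence
  have hcpt : IsCompact (closure (T '' Metric.closedBall 0 2)) :=
    IsCompactOperator.isCompact_closure_image_closedBall (f := (T : C(A, 𝕜) →ₗ[𝕜] C(A, 𝕜))) hT 2
  obtain ⟨h, -, φ, hφ, hlim⟩ := hcpt.tendsto_subseq (x := fun i => T (g i))
    (fun i => subset_closure ⟨g i, by simpa using hgn i, rfl⟩)
  have hev := (tendsto_iff_norm_sub_tendsto_zero.1 hlim).eventually_lt_const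
      (show (0 : ℝ) < e / 4 by positivity)
  obtain ⟨K, hK⟩ := eventually_atTop.1 hev
  obtain ⟨ψ, hψ⟩ : ∃ ψ : ℕ → ℕ, ∀ k, ψ k = φ (k + K) := ⟨_, fun k => rfl⟩
  have hψm : StrictMono ψ := by
    intro a b hab
    rw [hψ, hψ]
    exact hφ (by omega)
  have hclose : ∀ k, ‖T (g (ψ k)) - h‖ < e / 4 := by
    intro k
    rw [hψ]
    exact hK (k + K) (by omega)
  obtain ⟨t, ht⟩ : ∃ t : ℕ → ℕ, ∀ k, t k = s (ψ k + 1) := ⟨_, fun k => rfl⟩
  have htm : StrictMono t := by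
    intro a b hab
    rw [ht, ht]
    exact hsm (by have := hψm hab; omega)
  obtain ⟨hher, hwf⟩ := hchain A τ
  have he' : 0 < e / (8 * (‖T‖ + 1)) := by positivity
  obtain ⟨n, l, hl0, -, hl1, hlG⟩ := hptak τ.Chain hher hwf _ he' t htm
  rw [Finset.sum_image (fun a _ b _ hab => htm.injective hab)] at hl1
  -- the convex combination
  obtain ⟨v, hv⟩ : ∃ v : C(A, 𝕜), v = ∑ k ∈ Finset.range n, ((l (t k) : ℝ) : 𝕜) • g (ψ k) :=
    ⟨_, rfl⟩
  have hvn : ‖v‖ ≤ 2 * (e / (8 * (‖T‖ + 1))) := by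
    rw [ContinuousMap.norm_le _ (by positivity)]
    intro x
    classical
    let G : Finset ℕ := ((Finset.range n).filter (fun k => g (ψ k) x ≠ 0)).image t
    have hG : τ.Chain G := by
      right
      refine ⟨x, fun r hr => ?_⟩
      obtain ⟨k, hk, rfl⟩ := Finset.mem_image.1 hr
      rw [Finset.mem_filter] at hk
      obtain ⟨b, hb1, hb2, hb3⟩ := hgx _ _ hk.2
      refine ⟨b, hb1, by rw [ht]; exact hb3, fun r' hr' hlt => ?_⟩
      obtain ⟨k', hk', rfl⟩ := Finset.mem_image.1 hr'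
      have hkk : k' < k := htm.lt_iff_lt.1 hlt
      have h1 : ψ k' + 1 ≤ ψ k := hψm hkk
      have h2 : s (ψ k' + 1) ≤ s (ψ k) := hsm.monotone h1
      rw [ht]
      omega
    have h1 : v x = ∑ k ∈ Finset.range n, ((l (t k) : ℝ) : 𝕜) * g (ψ k) x := by
      rw [hv, ContinuousMap.sum_apply]
      refine Finset.sum_congr rfl (fun k _ => ?_)
      rw [ContinuousMap.smul_apply, smul_eq_mul]
    rw [h1]
    calc ‖∑ k ∈ Finset.range n, ((l (t k) : ℝ) : 𝕜) * g (ψ k) x‖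
        ≤ ∑ k ∈ Finset.range n, ‖((l (t k) : ℝ) : 𝕜) * g (ψ k) x‖ := norm_sum_le _ _
      _ = ∑ k ∈ Finset.range n, l (t k) * ‖g (ψ k) x‖ := by
          refine Finset.sum_congr rfl (fun k _ => ?_)
          rw [norm_mul, RCLike.norm_ofReal, abs_of_nonneg (hl0 _)]
      _ = ∑ k ∈ (Finset.range n).filter (fun k => g (ψ k) x ≠ 0), l (t k) * ‖g (ψ k) x‖ := by
          rw [Finset.sum_filter]
          refine Finset.sum_congr rfl (fun k _ => ?_)
          split_ifs with h0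
          · rfl
          · rw [not_not] at h0
            rw [h0]
            simp
      _ ≤ ∑ k ∈ (Finset.range n).filter (fun k => g (ψ k) x ≠ 0), l (t k) * 2 := by
          refine Finset.sum_le_sum (fun k _ => ?_)
          exact mul_le_mul_of_nonneg_left ((ContinuousMap.norm_coe_le_norm _ _).trans (hgn _))
            (hl0 _)
      _ = 2 * ∑ r ∈ G, l r := by
          rw [Finset.sum_image (fun a _ b _ hab => htm.injective hab), ← Finset.sum_mul, mul_comm]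
      _ ≤ 2 * (e / (8 * (‖T‖ + 1))) := mul_le_mul_of_nonneg_left (hlG G hG) (by norm_num)
  have hTv : ‖T v - h‖ ≤ e / 4 := by
    have h1 : T v - h = ∑ k ∈ Finset.range n, ((l (t k) : ℝ) : 𝕜) • (T (g (ψ k)) - h) := by
      have h2 : ∑ k ∈ Finset.range n, ((l (t k) : ℝ) : 𝕜) = 1 := by
        rw [← RCLike.ofReal_sum, hl1]
        simp
      simp only [smul_sub]
      rw [Finset.sum_sub_distrib, ← Finset.sum_smul, h2, one_smul, hv, map_sum]
      simp only [map_smul]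
    rw [h1]
    calc ‖∑ k ∈ Finset.range n, ((l (t k) : ℝ) : 𝕜) • (T (g (ψ k)) - h)‖
        ≤ ∑ k ∈ Finset.range n, ‖((l (t k) : ℝ) : 𝕜) • (T (g (ψ k)) - h)‖ := norm_sum_le _ _
      _ = ∑ k ∈ Finset.range n, l (t k) * ‖T (g (ψ k)) - h‖ := by
          refine Finset.sum_congr rfl (fun k _ => ?_)
          rw [norm_smul, RCLike.norm_ofReal, abs_of_nonneg (hl0 _)]
      _ ≤ ∑ k ∈ Finset.range n, l (t k) * (e / 4) :=
          Finset.sum_le_sum (fun k _ => mul_le_mul_of_nonneg_left (hclose k).le (hl0 _))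
      _ = e / 4 := by rw [← Finset.sum_mul, hl1, one_mul]
  have hT1 : ‖T v‖ ≤ e / 4 := by
    calc ‖T v‖ ≤ ‖T‖ * ‖v‖ := T.le_opNorm v
      _ ≤ ‖T‖ * (2 * (e / (8 * (‖T‖ + 1)))) := mul_le_mul_of_nonneg_left hvn (norm_nonneg _)
      _ = (e / 4) * (‖T‖ / (‖T‖ + 1)) := by
          have : ‖T‖ + 1 ≠ 0 := by positivity
          field_simp
          ring
      _ ≤ (e / 4) * 1 := by
          apply mul_le_mul_of_nonneg_left _ (by positivity)
          rw [div_le_one (by positivity)]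
          linarith
      _ = e / 4 := mul_one _
  have hh1 : ‖h‖ ≤ e / 2 := by
    have : h = T v - (T v - h) := by abel
    rw [this]
    refine (norm_sub_le _ _).trans ?_
    linarith
  have hh2 : e < ‖h‖ + e / 4 := by
    have h3 : T (g (ψ 0)) = h + (T (g (ψ 0)) - h) := by abel
    have h4 := norm_add_le h (T (g (ψ 0)) - h)
    rw [← h3] at h4
    have h5 := hgT (ψ 0)
    have h6 := hclose 0
    linarith
  linarith

end H9

/-- module TPC -/
theorem cal_tpc {𝕜 : Type*} [RCLike 𝕜] {A : Type u} [PartialOrder A] [TopologicalSpace A]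
    [CompactSpace A] (hchain : CHAINStmt.{u}) (hptak : PTAKStmt) (τ : TreeLev A) :
    TPCStmt 𝕜 τ := by
  intro _ P hP hPn hPt T hT e he
  exact ⟨H9.tail1 hchain hptak τ P hP hPn hPt T hT e he, H9.tail2 P hPn hPt T hT e he⟩

end CAL
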